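import Mathlib
import Pool.Agent.P.MP_389f6f_co.QAll
import Pool.Agent.P.MP_389f6f_co.QFull

set_option autoImplicit false
open Classical

namespace Pool.Agent.Results.MP_389f6f_co.Full

/-- Q1 in every number `N` of variables at once: the coefficients `c` do not depend on `N`. -/
theorem result :
  ∀ (n : ℕ) (I : Finset ℕ) (h : ℕ → ℕ),
    0 < n →
    (∀ i ∈ I, 1 ≤ i ∧ i < n) →
    (∀ i ∈ insert n I, h i ∈ insert n I ∧ i ≤ h i) →
    (∀ i ∈ insert n I, ∀ j ∈ insert n I, i ≤ j → h i ≤ h j) →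
    ∃ c : Nat.Partition n → Polynomial ℤ,
      (∀ μ k, 0 ≤ (c μ).coeff k) ∧ ∀ N : ℕ,
      (∑ γ ∈ (Finset.univ : Finset ({x // x ∈ insert n I} → Finset (Fin N))).filter
          (fun γ =>
            (∀ v : {x // x ∈ insert n I},
              (γ v).card = (v : ℕ) - ((insert n I).filter (fun j => j < (v : ℕ))).sup id) ∧
            (∀ u v : {x // x ∈ insert n I},
              (u : ℕ) < (v : ℕ) → (v : ℕ) ≤ h (u : ℕ) → Disjoint (γ u) (γ v))),
        MvPolynomial.C
            ((Polynomial.X : Polynomial ℤ) ^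
              (∑ u : {x // x ∈ insert n I}, ∑ v : {x // x ∈ insert n I},
                if (u : ℕ) < (v : ℕ) ∧ (v : ℕ) ≤ h (u : ℕ) then
                  (((γ u) ×ˢ (γ v)).filter (fun p => p.1 < p.2)).card
                else 0)) *
          ∏ v : {x // x ∈ insert n I}, ∏ a ∈ γ v,
            (MvPolynomial.X a : MvPolynomial (Fin N) (Polynomial ℤ)))
      = ∑ μ : Nat.Partition n,
          MvPolynomial.C (c μ) *
            (μ.parts.map (fun k => MvPolynomial.esymm (Fin N) (Polynomial ℤ) k)).prod :=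
  fun n I h _ hI _ h2 => Pool.Agent.P.MP_389f6f_co.Qt.FullA.unif n I h fun N =>
    Pool.Agent.P.MP_389f6f_co.Qt.FullA.glueN Pool.Agent.P.MP_389f6f_co.Qt.t_model
      Pool.Agent.P.MP_389f6f_co.Qt.t_emb Pool.Agent.P.MP_389f6f_co.Qt.bundle N n I h hI h2

end Pool.Agent.Results.MP_389f6f_co.Full
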