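import Mathlib
import Pool.Agent.P.MP_389f6f_co.PtGlue

set_option autoImplicit false
open Classical

namespace Pool.Agent.Results.MP_389f6f_co.Pointed

/-- Pointed refinement of Q1: the colour `a` of the first vertex (of weight one) is prescribed,
and the coefficients `c` depend neither on `a` nor on the number `N` of colours. -/
theorem result :
  ∀ (n : ℕ) (I : Finset ℕ) (h : ℕ → ℕ),
    0 < n →
    (∀ i ∈ I, 1 ≤ i ∧ i < n) →
    (∀ i ∈ insert n I, h i ∈ insert n I ∧ i ≤ h i) →
    (∀ i ∈ insert n I, ∀ j ∈ insert n I, i ≤ j → h i ≤ h j) →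
    ∀ h1 : 1 ∈ insert n I,
    ∃ c : (k : ℕ) → Nat.Partition (n - 1 - k) → Polynomial ℤ,
      (∀ k μ j, 0 ≤ (c k μ).coeff j) ∧ ∀ (N : ℕ) (a : Fin N),
      (∑ γ ∈ (Finset.univ : Finset ({x // x ∈ insert n I} → Finset (Fin N))).filter
          (fun γ =>
            (∀ v : {x // x ∈ insert n I},
              (γ v).card = (v : ℕ) - ((insert n I).filter (fun j => j < (v : ℕ))).sup id) ∧
            (∀ u v : {x // x ∈ insert n I},
              (u : ℕ) < (v : ℕ) → (v : ℕ) ≤ h (u : ℕ) → Disjoint (γ u) (γ v)) ∧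
            γ ⟨1, h1⟩ = {a}),
        MvPolynomial.C
            ((Polynomial.X : Polynomial ℤ) ^
              (∑ u : {x // x ∈ insert n I}, ∑ v : {x // x ∈ insert n I},
                if (u : ℕ) < (v : ℕ) ∧ (v : ℕ) ≤ h (u : ℕ) then
                  (((γ u) ×ˢ (γ v)).filter (fun p => p.1 < p.2)).card
                else 0)) *
          ∏ v : {x // x ∈ insert n I}, ∏ s ∈ γ v,
            (MvPolynomial.X s : MvPolynomial (Fin N) (Polynomial ℤ)))
      = MvPolynomial.X a * ∑ k ∈ Finset.range n, ∑ μ : Nat.Partition (n - 1 - k),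
          MvPolynomial.C (c k μ) *
            (∑ S ∈ Finset.powersetCard k (Finset.univ.erase a),
              MvPolynomial.C ((Polynomial.X : Polynomial ℤ) ^ (S.filter fun s => a < s).card) *
                ∏ s ∈ S, MvPolynomial.X s) *
            (μ.parts.map (fun j => MvPolynomial.esymm (Fin N) (Polynomial ℤ) j)).prod := by
  intro n I h hn hI _ h2 h1
  obtain ⟨c, h3, h4⟩ := Pool.Agent.P.MP_389f6f_co.Qt.Pt.pointed n I h hn hI h2 h1
  refine ⟨c, h3, fun N a => ?_⟩
  have h5 := h4 N a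
  unfold Pool.Agent.P.MP_389f6f_co.Qt.Pt.pf Pool.Agent.P.MP_389f6f_co.Qt.Pt.pr
    Pool.Agent.P.MP_389f6f_co.Qt.Pt.eps at h5
  convert h5

end Pool.Agent.Results.MP_389f6f_co.Pointed
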